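import Pool.Agent.H60.KG.Cor

/-!
A lower bound for the number of conjugacy classes of a finite group `G` in terms of `log |G|`,
which is linear in `log |G|` for groups whose prime divisors lie in a fixed finite set and whose
nonabelian simple sections have bounded order.
-/

namespace Pool.Agent.Results.MP_a15a7c_al.ClassNumberBound

universe u

/-- Every nonabelian simple group `T` that is a quotient of a subgroup of `G` has at most `2 ^ s`
automorphisms. -/
def SectionBound (s : ℕ) (G : Type u) [Group G] : Prop :=
  ∀ (T : Type u) [Group T] [IsSimpleGroup T], (∃ x y : T, x * y ≠ y * x) →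
    (∃ (K : Subgroup G) (f : K →* T), Function.Surjective f) → Nat.card (MulAut T) ≤ 2 ^ s

/-- For each prime `p` dividing `|G|`, each power `p ^ d > M` and each element `g` whose order
divides `p ^ d - 1`, the order of `g` is at most the square root of `p ^ d`. -/
def OrderBound (M : ℕ) (G : Type u) [Group G] : Prop :=
  ∀ p : ℕ, p.Prime → p ∣ Nat.card G → ∀ d : ℕ, M < p ^ d → ∀ g : G,
    orderOf g ∣ p ^ d - 1 → (orderOf g) ^ 2 ≤ p ^ d

/-- There is a constant `C` such that for each finite group `G`, with `k = k(G)` classes,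
`log₂ |G| ≤ C (k - 1) ((1 + s) (1 + log₂ (1 + s)) + min (log₂ k, log₂ M, S log₂ P))`,
where `S` is the sum and `P` the maximum of the prime divisors of `|G|`. -/
theorem result :
    ∃ C : ℝ, 0 < C ∧ ∀ (G : Type u) [Group G] [Finite G] (s M : ℕ), 1 ≤ M →
      SectionBound s G → OrderBound M G →
      Real.logb 2 (Nat.card G) ≤ C * ((Nat.card (ConjClasses G) : ℝ) - 1) *
        ((1 + s) * (1 + Real.logb 2 (1 + s)) +
          min (Real.logb 2 (Nat.card (ConjClasses G)))
            (min (Real.logb 2 M)
              ((∑ r ∈ (Nat.card G).primeFactors, (r : ℝ)) *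
                Real.logb 2 ((Nat.card G).primeFactors.sup id : ℕ)))) := by
  refine ⟨131088, by norm_num, ?_⟩
  intro G _ _ s M hM hs hord
  have hk := H60.KG.one_le_class G
  have h1 := H60.KG.crit_k (G := G) hs
  have h2 := H60.KG.crit (G := G) hs hM hord
  have h3 := H60.KG.crit_sigma (G := G) hs
  have h4 : 0 ≤ (Nat.card (ConjClasses G) : ℝ) - 1 := by
    have : (1 : ℝ) ≤ Nat.card (ConjClasses G) := by exact_mod_cast hk
    linarith
  have h5 := H60.KG.one_le_lamR s
  have h6 : 0 ≤ Real.logb 2 (M : ℝ) := Real.logb_nonneg (by norm_num) (by exact_mod_cast hM)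
  have h2' : Real.logb 2 (Nat.card G) ≤ 131088 * ((Nat.card (ConjClasses G) : ℝ) - 1) *
      (H60.KG.lamR s + Real.logb 2 M) := by
    refine h2.trans ?_
    apply mul_le_mul_of_nonneg_right _ (by linarith)
    nlinarith
  have hlam : ((1 : ℝ) + s) * (1 + Real.logb 2 (1 + s)) = H60.KG.lamR s := rfl
  rw [hlam, ← min_add_add_left, ← min_add_add_left, mul_min_of_nonneg _ _ (by positivity),
    mul_min_of_nonneg _ _ (by positivity)]
  exact le_min h1 (le_min h2' h3)

end Pool.Agent.Results.MP_a15a7c_al.ClassNumberBound
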