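import Pool.Agent.H48.CN.Final

/-!
The number of conjugacy classes of a finite solvable group is at least a constant times
the logarithm of the order divided by the sixth power of the triple logarithm of the order.
-/

namespace Pool.Agent.Results.MP_a15a7c_al.SolvableClasses

universe u

/-- There is a constant `c > 0` such that every finite solvable group `G` with `|G| > 16` has at
least `c log₂ |G| / (log₂ log₂ log₂ |G|) ^ 6` conjugacy classes. -/
theorem result :
    ∃ c : ℝ, 0 < c ∧ ∀ (G : Type u) [Group G] [Finite G], Group.IsSolvable G → 16 < Nat.card G →
      c * Real.logb 2 (Nat.card G) /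
        (Real.logb 2 (Real.logb 2 (Real.logb 2 (Nat.card G)))) ^ 6 ≤
          Nat.card (ConjClasses G) :=
  H48.CN.fin' H48.CN.final

end Pool.Agent.Results.MP_a15a7c_al.SolvableClasses
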